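import Mathlib
import Pool.Agent.Lib.helper6.Dist

set_option autoImplicit false

namespace Pool.Agent.Results.MP_75ab16_co.Triangle

/-- one cup stacking move from configuration `C` to configuration `C'` -/
def Move {V : Type} [DecidableEq V] (G : SimpleGraph V) (C C' : V → ℕ) : Prop :=
  ∃ u v, 1 ≤ C u ∧ 1 ≤ C v ∧ G.dist u v = C u ∧
    C' = fun w => if w = u then 0 else if w = v then C u + C v else C w

/-- some sequence of moves leads from one cup on each vertex to all cups on `r` -/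
def Stackable {V : Type} [Fintype V] [DecidableEq V] (G : SimpleGraph V) (r : V) : Prop :=
  Relation.ReflTransGen (Move G) (fun _ => 1) (fun w => if w = r then Fintype.card V else 0)

def D : Fin 8 → Fin 8 → ℕ := ![![0, 1, 1, 1, 1, 1, 2, 2], ![1, 0, 1, 2, 2, 2, 1, 1], ![1, 1, 0, 2, 2, 2, 2, 2], ![1, 2, 2, 0, 2, 2, 3, 3], ![1, 2, 2, 2, 0, 2, 3, 3], ![1, 2, 2, 2, 2, 0, 3, 3], ![2, 1, 2, 3, 3, 3, 0, 2], ![2, 1, 2, 3, 3, 3, 2, 0]]

/-- the triangle `0 1 2` with leaves `3 4 5` at `0` and leaves `6 7` at `1` -/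
def X : SimpleGraph (Fin 8) where
  Adj u v := D u v = 1
  symm := ⟨by decide⟩
  loopless := ⟨by decide⟩

instance : DecidableRel X.Adj := fun u v => inferInstanceAs (Decidable (D u v = 1))

theorem hdist (u v : Fin 8) : X.Reachable u v ∧ X.dist u v = D u v :=
  Pool.Agent.Lib.helper6.dist_eq_of_cert X D (by decide) (by decide +kernel) (by decide +kernel) u v

def go : ℕ → ℕ → ℕ → ℕ → ℕ → ℕ → ℕ → ℕ → ℕ → Bool
  | 0, _, _, _, _, _, _, _, _ => false
  | n + 1, a0, a1, a2, a3, a4, a5, a6, a7 =>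
      (a0 != 8 && a1 != 8 && a2 != 8 && a3 != 8 && a4 != 8 && a5 != 8 && a6 != 8 && a7 != 8) &&
      (a0 != 1 || ((a1 == 0 || go n 0 (a0 + a1) a2 a3 a4 a5 a6 a7) &&
        (a2 == 0 || go n 0 a1 (a0 + a2) a3 a4 a5 a6 a7) &&
        (a3 == 0 || go n 0 a1 a2 (a0 + a3) a4 a5 a6 a7) &&
        (a4 == 0 || go n 0 a1 a2 a3 (a0 + a4) a5 a6 a7) &&
        (a5 == 0 || go n 0 a1 a2 a3 a4 (a0 + a5) a6 a7))) &&
      (a0 != 2 || ((a6 == 0 || go n 0 a1 a2 a3 a4 a5 (a0 + a6) a7) &&
        (a7 == 0 || go n 0 a1 a2 a3 a4 a5 a6 (a0 + a7)))) &&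
      (a1 != 1 || ((a0 == 0 || go n (a1 + a0) 0 a2 a3 a4 a5 a6 a7) &&
        (a2 == 0 || go n a0 0 (a1 + a2) a3 a4 a5 a6 a7) &&
        (a6 == 0 || go n a0 0 a2 a3 a4 a5 (a1 + a6) a7) &&
        (a7 == 0 || go n a0 0 a2 a3 a4 a5 a6 (a1 + a7)))) &&
      (a1 != 2 || ((a3 == 0 || go n a0 0 a2 (a1 + a3) a4 a5 a6 a7) &&
        (a4 == 0 || go n a0 0 a2 a3 (a1 + a4) a5 a6 a7) &&
        (a5 == 0 || go n a0 0 a2 a3 a4 (a1 + a5) a6 a7))) &&
      (a2 != 1 || ((a0 == 0 || go n (a2 + a0) a1 0 a3 a4 a5 a6 a7) &&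
        (a1 == 0 || go n a0 (a2 + a1) 0 a3 a4 a5 a6 a7))) &&
      (a2 != 2 || ((a3 == 0 || go n a0 a1 0 (a2 + a3) a4 a5 a6 a7) &&
        (a4 == 0 || go n a0 a1 0 a3 (a2 + a4) a5 a6 a7) &&
        (a5 == 0 || go n a0 a1 0 a3 a4 (a2 + a5) a6 a7) &&
        (a6 == 0 || go n a0 a1 0 a3 a4 a5 (a2 + a6) a7) &&
        (a7 == 0 || go n a0 a1 0 a3 a4 a5 a6 (a2 + a7)))) &&
      (a3 != 1 || ((a0 == 0 || go n (a3 + a0) a1 a2 0 a4 a5 a6 a7))) &&
      (a3 != 2 || ((a1 == 0 || go n a0 (a3 + a1) a2 0 a4 a5 a6 a7) &&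
        (a2 == 0 || go n a0 a1 (a3 + a2) 0 a4 a5 a6 a7) &&
        (a4 == 0 || go n a0 a1 a2 0 (a3 + a4) a5 a6 a7) &&
        (a5 == 0 || go n a0 a1 a2 0 a4 (a3 + a5) a6 a7))) &&
      (a3 != 3 || ((a6 == 0 || go n a0 a1 a2 0 a4 a5 (a3 + a6) a7) &&
        (a7 == 0 || go n a0 a1 a2 0 a4 a5 a6 (a3 + a7)))) &&
      (a4 != 1 || ((a0 == 0 || go n (a4 + a0) a1 a2 a3 0 a5 a6 a7))) &&
      (a4 != 2 || ((a1 == 0 || go n a0 (a4 + a1) a2 a3 0 a5 a6 a7) &&
        (a2 == 0 || go n a0 a1 (a4 + a2) a3 0 a5 a6 a7) &&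
        (a3 == 0 || go n a0 a1 a2 (a4 + a3) 0 a5 a6 a7) &&
        (a5 == 0 || go n a0 a1 a2 a3 0 (a4 + a5) a6 a7))) &&
      (a4 != 3 || ((a6 == 0 || go n a0 a1 a2 a3 0 a5 (a4 + a6) a7) &&
        (a7 == 0 || go n a0 a1 a2 a3 0 a5 a6 (a4 + a7)))) &&
      (a5 != 1 || ((a0 == 0 || go n (a5 + a0) a1 a2 a3 a4 0 a6 a7))) &&
      (a5 != 2 || ((a1 == 0 || go n a0 (a5 + a1) a2 a3 a4 0 a6 a7) &&
        (a2 == 0 || go n a0 a1 (a5 + a2) a3 a4 0 a6 a7) &&
        (a3 == 0 || go n a0 a1 a2 (a5 + a3) a4 0 a6 a7) &&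
        (a4 == 0 || go n a0 a1 a2 a3 (a5 + a4) 0 a6 a7))) &&
      (a5 != 3 || ((a6 == 0 || go n a0 a1 a2 a3 a4 0 (a5 + a6) a7) &&
        (a7 == 0 || go n a0 a1 a2 a3 a4 0 a6 (a5 + a7)))) &&
      (a6 != 1 || ((a1 == 0 || go n a0 (a6 + a1) a2 a3 a4 a5 0 a7))) &&
      (a6 != 2 || ((a0 == 0 || go n (a6 + a0) a1 a2 a3 a4 a5 0 a7) &&
        (a2 == 0 || go n a0 a1 (a6 + a2) a3 a4 a5 0 a7) &&
        (a7 == 0 || go n a0 a1 a2 a3 a4 a5 0 (a6 + a7)))) &&
      (a6 != 3 || ((a3 == 0 || go n a0 a1 a2 (a6 + a3) a4 a5 0 a7) &&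
        (a4 == 0 || go n a0 a1 a2 a3 (a6 + a4) a5 0 a7) &&
        (a5 == 0 || go n a0 a1 a2 a3 a4 (a6 + a5) 0 a7))) &&
      (a7 != 1 || ((a1 == 0 || go n a0 (a7 + a1) a2 a3 a4 a5 a6 0))) &&
      (a7 != 2 || ((a0 == 0 || go n (a7 + a0) a1 a2 a3 a4 a5 a6 0) &&
        (a2 == 0 || go n a0 a1 (a7 + a2) a3 a4 a5 a6 0) &&
        (a6 == 0 || go n a0 a1 a2 a3 a4 a5 (a7 + a6) 0))) &&
      (a7 != 3 || ((a3 == 0 || go n a0 a1 a2 (a7 + a3) a4 a5 a6 0) &&
        (a4 == 0 || go n a0 a1 a2 a3 (a7 + a4) a5 a6 0) &&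
        (a5 == 0 || go n a0 a1 a2 a3 a4 (a7 + a5) a6 0)))

theorem go_start : go 8 1 1 1 1 1 1 1 1 = true := by decide +kernel

def ok (n : ℕ) (C : Fin 8 → ℕ) : Prop := go n (C 0) (C 1) (C 2) (C 3) (C 4) (C 5) (C 6) (C 7) = true

theorem ok_step (n : ℕ) (C C' : Fin 8 → ℕ) (h : ok (n + 1) C) (hm : Move X C C') : ok n C' := by
  obtain ⟨u, v, h1, h2, h3, rfl⟩ := hm
  rw [(hdist u v).2] at h3
  simp only [ok, go, Bool.and_eq_true, Bool.or_eq_true, bne_iff_ne, beq_iff_eq, ne_eq] at h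
  unfold ok
  have h4 : C v ≠ 0 := by omega
  obtain ⟨⟨⟨⟨⟨⟨⟨⟨⟨⟨⟨⟨⟨⟨⟨⟨⟨⟨⟨⟨⟨-, p01⟩, p02⟩, p11⟩, p12⟩, p21⟩, p22⟩, p31⟩, p32⟩, p33⟩, p41⟩, p42⟩,
    p43⟩, p51⟩, p52⟩, p53⟩, p61⟩, p62⟩, p63⟩, p71⟩, p72⟩, p73⟩ := h
  fin_cases u <;> fin_cases v
  · exact absurd (h3 ▸ h1) (by decide)
  · simpa using (p01.resolve_left (fun e => e h3.symm)).1.1.1.1.resolve_left h4
  · simpa using (p01.resolve_left (fun e => e h3.symm)).1.1.1.2.resolve_left h4
  · simpa using (p01.resolve_left (fun e => e h3.symm)).1.1.2.resolve_left h4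
  · simpa using (p01.resolve_left (fun e => e h3.symm)).1.2.resolve_left h4
  · simpa using (p01.resolve_left (fun e => e h3.symm)).2.resolve_left h4
  · simpa using (p02.resolve_left (fun e => e h3.symm)).1.resolve_left h4
  · simpa using (p02.resolve_left (fun e => e h3.symm)).2.resolve_left h4
  · simpa using (p11.resolve_left (fun e => e h3.symm)).1.1.1.resolve_left h4
  · exact absurd (h3 ▸ h1) (by decide)
  · simpa using (p11.resolve_left (fun e => e h3.symm)).1.1.2.resolve_left h4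
  · simpa using (p12.resolve_left (fun e => e h3.symm)).1.1.resolve_left h4
  · simpa using (p12.resolve_left (fun e => e h3.symm)).1.2.resolve_left h4
  · simpa using (p12.resolve_left (fun e => e h3.symm)).2.resolve_left h4
  · simpa using (p11.resolve_left (fun e => e h3.symm)).1.2.resolve_left h4
  · simpa using (p11.resolve_left (fun e => e h3.symm)).2.resolve_left h4
  · simpa using (p21.resolve_left (fun e => e h3.symm)).1.resolve_left h4
  · simpa using (p21.resolve_left (fun e => e h3.symm)).2.resolve_left h4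
  · exact absurd (h3 ▸ h1) (by decide)
  · simpa using (p22.resolve_left (fun e => e h3.symm)).1.1.1.1.resolve_left h4
  · simpa using (p22.resolve_left (fun e => e h3.symm)).1.1.1.2.resolve_left h4
  · simpa using (p22.resolve_left (fun e => e h3.symm)).1.1.2.resolve_left h4
  · simpa using (p22.resolve_left (fun e => e h3.symm)).1.2.resolve_left h4
  · simpa using (p22.resolve_left (fun e => e h3.symm)).2.resolve_left h4
  · simpa using (p31.resolve_left (fun e => e h3.symm)).resolve_left h4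
  · simpa using (p32.resolve_left (fun e => e h3.symm)).1.1.1.resolve_left h4
  · simpa using (p32.resolve_left (fun e => e h3.symm)).1.1.2.resolve_left h4
  · exact absurd (h3 ▸ h1) (by decide)
  · simpa using (p32.resolve_left (fun e => e h3.symm)).1.2.resolve_left h4
  · simpa using (p32.resolve_left (fun e => e h3.symm)).2.resolve_left h4
  · simpa using (p33.resolve_left (fun e => e h3.symm)).1.resolve_left h4
  · simpa using (p33.resolve_left (fun e => e h3.symm)).2.resolve_left h4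
  · simpa using (p41.resolve_left (fun e => e h3.symm)).resolve_left h4
  · simpa using (p42.resolve_left (fun e => e h3.symm)).1.1.1.resolve_left h4
  · simpa using (p42.resolve_left (fun e => e h3.symm)).1.1.2.resolve_left h4
  · simpa using (p42.resolve_left (fun e => e h3.symm)).1.2.resolve_left h4
  · exact absurd (h3 ▸ h1) (by decide)
  · simpa using (p42.resolve_left (fun e => e h3.symm)).2.resolve_left h4
  · simpa using (p43.resolve_left (fun e => e h3.symm)).1.resolve_left h4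
  · simpa using (p43.resolve_left (fun e => e h3.symm)).2.resolve_left h4
  · simpa using (p51.resolve_left (fun e => e h3.symm)).resolve_left h4
  · simpa using (p52.resolve_left (fun e => e h3.symm)).1.1.1.resolve_left h4
  · simpa using (p52.resolve_left (fun e => e h3.symm)).1.1.2.resolve_left h4
  · simpa using (p52.resolve_left (fun e => e h3.symm)).1.2.resolve_left h4
  · simpa using (p52.resolve_left (fun e => e h3.symm)).2.resolve_left h4
  · exact absurd (h3 ▸ h1) (by decide)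
  · simpa using (p53.resolve_left (fun e => e h3.symm)).1.resolve_left h4
  · simpa using (p53.resolve_left (fun e => e h3.symm)).2.resolve_left h4
  · simpa using (p62.resolve_left (fun e => e h3.symm)).1.1.resolve_left h4
  · simpa using (p61.resolve_left (fun e => e h3.symm)).resolve_left h4
  · simpa using (p62.resolve_left (fun e => e h3.symm)).1.2.resolve_left h4
  · simpa using (p63.resolve_left (fun e => e h3.symm)).1.1.resolve_left h4
  · simpa using (p63.resolve_left (fun e => e h3.symm)).1.2.resolve_left h4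
  · simpa using (p63.resolve_left (fun e => e h3.symm)).2.resolve_left h4
  · exact absurd (h3 ▸ h1) (by decide)
  · simpa using (p62.resolve_left (fun e => e h3.symm)).2.resolve_left h4
  · simpa using (p72.resolve_left (fun e => e h3.symm)).1.1.resolve_left h4
  · simpa using (p71.resolve_left (fun e => e h3.symm)).resolve_left h4
  · simpa using (p72.resolve_left (fun e => e h3.symm)).1.2.resolve_left h4
  · simpa using (p73.resolve_left (fun e => e h3.symm)).1.1.resolve_left h4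
  · simpa using (p73.resolve_left (fun e => e h3.symm)).1.2.resolve_left h4
  · simpa using (p73.resolve_left (fun e => e h3.symm)).2.resolve_left h4
  · simpa using (p72.resolve_left (fun e => e h3.symm)).2.resolve_left h4
  · exact absurd (h3 ▸ h1) (by decide)

theorem ok_end (n : ℕ) (r : Fin 8) : ¬ ok n (fun w => if w = r then Fintype.card (Fin 8) else 0) := by
  cases n with
  | zero => simp [ok, go]
  | succ n =>
    intro h
    simp only [ok, go, Bool.and_eq_true, bne_iff_ne, ne_eq] at h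
    fin_cases r <;> simp at h

theorem result : ∃ (n : ℕ) (G : SimpleGraph (Fin n)), G.Connected ∧ ¬ G.IsTree ∧
    ∀ r, ¬ Stackable G r := by
  refine ⟨8, X, ⟨fun u v => (hdist u v).1⟩, fun h => ?_, fun r h => ?_⟩
  · have := h.card_edgeFinset
    revert this
    decide +kernel
  · have key : ∀ C, Relation.ReflTransGen (Move X) C
        (fun w => if w = r then Fintype.card (Fin 8) else 0) → ∀ n, ¬ ok n C := by
      intro C hC
      induction hC using Relation.ReflTransGen.head_induction_on with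
      | refl => exact fun n => ok_end n r
      | head hm _ ih =>
        intro n hn
        cases n with
        | zero => simp [ok, go] at hn
        | succ n => exact ih n (ok_step n _ _ hn hm)
    exact key _ h 8 go_start

end Pool.Agent.Results.MP_75ab16_co.Triangle
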